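import Pool.Agent.H73.CBD.Stmts

set_option autoImplicit false

open Set Filter Topology

namespace Pool.CBD

private theorem alg_N (z : V) : N (f z) = 2 * (‖z 0‖ ^ 4 + ‖z 1‖ ^ 4) := by
  have h := parallelogram_law_with_norm ℝ (z 0 ^ 2) (z 1 ^ 2)
  unfold N f
  simp only [Matrix.cons_val_zero, Matrix.cons_val_one]
  rw [norm_pow, norm_pow] at h
  nlinarith [h]

private theorem alg_pos (z : V) (hz : z ≠ 0) : 0 < N z := by
  unfold N
  by_contra h
  have h0 : ‖z 0‖ ^ 2 = 0 := by nlinarith [sq_nonneg ‖z 0‖, sq_nonneg ‖z 1‖]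
  have h1 : ‖z 1‖ ^ 2 = 0 := by nlinarith [sq_nonneg ‖z 0‖, sq_nonneg ‖z 1‖]
  apply hz
  funext i
  fin_cases i
  · exact norm_eq_zero.1 (pow_eq_zero_iff (by norm_num) |>.1 h0)
  · exact norm_eq_zero.1 (pow_eq_zero_iff (by norm_num) |>.1 h1)

private theorem alg_der (z v : V) : fderiv ℝ f z v =
    ![2 * z 0 * v 0 - 2 * z 1 * v 1, 2 * z 0 * v 0 + 2 * z 1 * v 1] := by
  have a0 : HasFDerivAt (𝕜 := ℝ) (fun w : V => w 0) (ContinuousLinearMap.proj (R := ℝ) 0) z :=
    (ContinuousLinearMap.proj (R := ℝ) (φ := fun _ : Fin 2 => ℂ) 0).hasFDerivAt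
  have a1 : HasFDerivAt (𝕜 := ℝ) (fun w : V => w 1) (ContinuousLinearMap.proj (R := ℝ) 1) z :=
    (ContinuousLinearMap.proj (R := ℝ) (φ := fun _ : Fin 2 => ℂ) 1).hasFDerivAt
  have b0 := (a0.mul a0).sub (a1.mul a1)
  have b1 := (a0.mul a0).add (a1.mul a1)
  have e0 : (fun w : V => f w 0) = fun w : V => w 0 * w 0 - w 1 * w 1 := by
    funext w
    show w 0 ^ 2 - w 1 ^ 2 = _
    ring
  have e1 : (fun w : V => f w 1) = fun w : V => w 0 * w 0 + w 1 * w 1 := by
    funext w
    show w 0 ^ 2 + w 1 ^ 2 = _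
    ring
  have hd : ∀ i : Fin 2, DifferentiableAt ℝ (fun w : V => f w i) z := by
    intro i
    fin_cases i
    · show DifferentiableAt ℝ (fun w : V => f w 0) z
      rw [e0]; exact b0.differentiableAt
    · show DifferentiableAt ℝ (fun w : V => f w 1) z
      rw [e1]; exact b1.differentiableAt
  have hpi : fderiv ℝ f z = ContinuousLinearMap.pi fun i => fderiv ℝ (fun w : V => f w i) z :=
    fderiv_pi hd
  rw [hpi]
  funext i
  rw [ContinuousLinearMap.pi_apply]
  fin_cases i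
  · show fderiv ℝ (fun w : V => f w 0) z v = 2 * z 0 * v 0 - 2 * z 1 * v 1
    rw [e0]
    have := b0.fderiv
    rw [show (fun w : V => w 0 * w 0 - w 1 * w 1) =
      ((fun w : V => w 0) * (fun w : V => w 0) - (fun w : V => w 1) * (fun w : V => w 1)) from rfl,
      this]
    simp
    ring
  · show fderiv ℝ (fun w : V => f w 1) z v = 2 * z 0 * v 0 + 2 * z 1 * v 1
    rw [e1]
    have := b1.fderiv
    rw [show (fun w : V => w 0 * w 0 + w 1 * w 1) =
      ((fun w : V => w 0) * (fun w : V => w 0) + (fun w : V => w 1) * (fun w : V => w 1)) from rfl,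
      this]
    simp
    ring

theorem ALG_thm : ALGStmt := by
  have hineq : ∀ z : V, N z ^ 2 ≤ N (f z) ∧ N (f z) ≤ 2 * N z ^ 2 := by
    intro z
    rw [alg_N]
    unfold N
    have h0 := sq_nonneg (‖z 0‖ ^ 2 - ‖z 1‖ ^ 2)
    have h1 : 0 ≤ ‖z 0‖ ^ 2 * ‖z 1‖ ^ 2 := by positivity
    constructor <;> nlinarith
  refine ⟨alg_N, alg_der, ?_, ?_, ?_, hineq, alg_pos, ?_, ?_⟩
  · intro z v
    rw [alg_der]
    unfold P f
    simp only [Matrix.cons_val_zero, Matrix.cons_val_one]
    ring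
  · refine contDiff_pi.2 fun i => ?_
    have c0 : ContDiff ℝ 2 (fun w : V => w 0) := contDiff_apply ℝ ℂ 0
    have c1 : ContDiff ℝ 2 (fun w : V => w 1) := contDiff_apply ℝ ℂ 1
    fin_cases i
    · exact (c0.pow 2).sub (c1.pow 2)
    · exact (c0.pow 2).add (c1.pow 2)
  · refine differentiable_pi.2 fun i => ?_
    have c0 : Differentiable ℂ (fun w : V => w 0) := differentiable_apply 0
    have c1 : Differentiable ℂ (fun w : V => w 1) := differentiable_apply 1
    fin_cases i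
    · exact (c0.pow 2).sub (c1.pow 2)
    · exact (c0.pow 2).add (c1.pow 2)
  · intro z hz h
    have h1 := alg_pos z hz
    have h2 := (hineq z).1
    rw [h] at h2
    have h3 : N (0 : V) = 0 := by simp [N]
    rw [h3] at h2
    nlinarith
  · intro z hz
    have h1 := alg_pos z hz
    have h2 := (hineq z).1
    rw [alg_N] at h2
    nlinarith

end Pool.CBD
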